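import Pool.Agent.N798.W.Stm
import Pool.Agent.Y886.PPD

/-! Project HW (helper798), step PP: many distinct prime values for a positive proportion of `n`. -/

set_option autoImplicit false
set_option maxHeartbeats 1000000

namespace Pool.Agent.N868.HW

open Finset Filter Pool.Agent.Y886.PP Pool.Agent.N798.HW

lemma fib_leQ (X N n : ℕ) : (fib X N n).card ≤ #(Qs n) := by
  classical
  unfold Qs
  apply card_le_card_of_injOn (fun z => z.2 + z.1 - 1)
  · intro z hz
    rw [mem_coe] at hz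
    unfold fib at hz
    obtain ⟨hz1, hz2⟩ := mem_filter.1 hz
    unfold pairs at hz1
    rw [mem_filter, mem_product, mem_Icc] at hz1
    obtain ⟨⟨⟨h1, h2⟩, h3⟩, h4, h5, h6, -⟩ := hz1
    subst hz2
    rw [mem_coe, mem_filter, mem_image]
    refine ⟨⟨z.2, mem_Ico.2 ⟨h5.one_le, by omega⟩, ?_⟩, h6⟩
    exact q_val h5 h4 h1
  · intro a ha b hb hab
    rw [mem_coe] at ha hb
    unfold fib at ha hb
    obtain ⟨ha1, e1⟩ := mem_filter.1 ha
    obtain ⟨hb1, e2⟩ := mem_filter.1 hb
    unfold pairs at ha1 hb1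
    rw [mem_filter, mem_product, mem_Icc] at ha1 hb1
    have a1 := ha1.1.1.1
    have b1 := hb1.1.1.1
    simp only at hab
    exact Prod.ext (by omega) (by omega)

theorem pp : S_PP := by
  classical
  unfold S_PP
  obtain ⟨c, hc, hs⟩ := sums_card
  obtain ⟨X0, h0⟩ := eventually_atTop.1 hs
  have tN : Tendsto (fun N : ℕ => (N : ℝ)) atTop atTop := tendsto_natCast_atTop_atTop
  have tL : Tendsto (fun N : ℕ => Real.log (N : ℝ)) atTop atTop := Real.tendsto_log_atTop.comp tN
  refine ⟨c / 32, by positivity, ?_⟩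
  obtain ⟨X1, h1⟩ := eventually_atTop.1 ((tL.eventually_ge_atTop (2 ^ 30)).and
    (tN.eventually_ge_atTop ((4 / c) ^ 2)))
  filter_upwards [eventually_ge_atTop (8 * (X0 + X1 + 1024))] with x hx
  obtain ⟨X, hX⟩ : ∃ X, X = x / 4 := ⟨_, rfl⟩
  have hX1 : X0 + X1 + 1024 ≤ X := by omega
  have hXx : x ≤ 8 * X := by omega
  have hXx' : 4 * X ≤ x := by omega
  obtain ⟨N, hNX, hN10, hN⟩ := h0 X (by omega)
  obtain ⟨g1, g2⟩ := h1 X (by omega)
  have hX8 : (1024 : ℝ) ≤ X := by exact_mod_cast (by omega : 1024 ≤ X)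
  have hXr : (x : ℝ) ≤ 8 * X := by exact_mod_cast hXx
  -- drop the small `n`
  obtain ⟨I, hI⟩ : ∃ I : Finset ℕ, I = (sums X N).filter (fun n : ℕ => (c / 2) * X ≤ (n : ℝ)) :=
    ⟨_, rfl⟩
  have hIcard : (c / 2) * X - 1 ≤ I.card := by
    have b1 : sums X N ⊆ I ∪ range (⌊(c / 2) * X⌋₊ + 1) := by
      intro n hn
      rw [mem_union, hI, mem_filter, mem_range]
      by_cases h : (c / 2) * X ≤ (n : ℝ)
      · left
        exact ⟨hn, h⟩
      · right
        rw [not_le] at h
        exact Nat.lt_succ_of_le (Nat.le_floor h.le)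
    have b2 := (card_le_card b1).trans (card_union_le _ _)
    rw [card_range] at b2
    have b3 : ((sums X N).card : ℝ) ≤ I.card + (⌊(c / 2) * X⌋₊ + 1) := by exact_mod_cast b2
    have b4 : (⌊(c / 2) * (X : ℝ)⌋₊ : ℝ) ≤ (c / 2) * X := Nat.floor_le (by positivity)
    linarith
  have hsub : I ⊆ (Icc 32 x).filter fun n : ℕ => (n : ℝ) / Real.log n ^ 14 ≤ (#(Qs n) : ℝ) := by
    intro n hn
    rw [hI, mem_filter] at hn
    have b1 := mem_Icc.1 (sums_mem hNX hn.1)
    -- `log n ≥ log X / 2`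
    have b2 : (X : ℝ) ≤ (n : ℝ) ^ 2 := by
      have c1 : 4 ≤ c ^ 2 * X := by
        rw [div_pow, div_le_iff₀ (by positivity)] at g2
        nlinarith
      calc (X : ℝ) ≤ (c ^ 2 * X / 4) * X := by
            have : (1 : ℝ) ≤ c ^ 2 * X / 4 := by linarith
            exact le_mul_of_one_le_left (by linarith) this
        _ = ((c / 2) * X) ^ 2 := by ring
        _ ≤ (n : ℝ) ^ 2 := by
            apply pow_le_pow_left₀ (by positivity) hn.2
    have b22 : 32 ≤ n := by
      have c1 : (1024 : ℝ) ≤ (n : ℝ) ^ 2 := hX8.trans b2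
      have c2 : 1024 ≤ n ^ 2 := by exact_mod_cast c1
      nlinarith
    rw [mem_filter, mem_Icc]
    refine ⟨⟨b22, by omega⟩, ?_⟩
    have b3 : Real.log X ≤ 2 * Real.log n := by
      have := Real.log_le_log (by linarith) b2
      rw [Real.log_pow] at this
      exact_mod_cast this
    obtain ⟨L, hL⟩ : ∃ L, L = Real.log (X : ℝ) := ⟨_, rfl⟩
    obtain ⟨l, hl⟩ : ∃ l, l = Real.log (n : ℝ) := ⟨_, rfl⟩
    rw [← hL] at g1 b3 hN10
    rw [← hl] at b3
    have b4 : L / 2 ≤ l := by linarith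
    have b6 : (fib X N n).card ≤ #(Qs n) := fib_leQ X N n
    have b7 : (N : ℝ) / (128 * L ^ 3) ≤ ((fib X N n).card : ℝ) := by
      have := hn.1
      unfold sums at this
      rw [hL]
      exact (mem_filter.1 this).2
    have b8 : (n : ℝ) / l ^ 14 ≤ N / (128 * L ^ 3) := by
      have c0 : (n : ℝ) ≤ 4 * X := by exact_mod_cast b1.2
      have c1 : (n : ℝ) ≤ 4 * (N * L ^ 10) := by linarith
      have hl0 : 0 < l := by linarith
      have hL0 : 0 < L := by linarith
      rw [div_le_div_iff₀ (by positivity) (by positivity)]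
      have c2 : 512 * L ^ 13 ≤ l ^ 14 := by
        calc 512 * L ^ 13 = (512 * 2 ^ 14) * L ^ 13 / 2 ^ 14 := by ring
          _ ≤ L * L ^ 13 / 2 ^ 14 := by gcongr; linarith
          _ = (L / 2) ^ 14 := by ring
          _ ≤ l ^ 14 := pow_le_pow_left₀ (by linarith) b4 14
      calc (n : ℝ) * (128 * L ^ 3) ≤ 4 * (N * L ^ 10) * (128 * L ^ 3) := by gcongr
        _ = N * (512 * L ^ 13) := by ring
        _ ≤ N * l ^ 14 := by gcongr
    rw [← hl]
    refine b8.trans (b7.trans ?_)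
    exact_mod_cast b6
  have hcard' : (I.card : ℝ) ≤ (#((Icc 32 x).filter fun n : ℕ => (n : ℝ) / Real.log n ^ 14 ≤ (#(Qs n) : ℝ)) : ℝ) := by
    exact_mod_cast card_le_card hsub
  have hcX : 1 ≤ c * X / 4 := by
    by_contra hcon
    rw [not_le] at hcon
    have d1 : (4 / c) ^ 2 ≤ X := g2
    rw [div_pow, div_le_iff₀ (by positivity)] at d1
    nlinarith
  refine le_trans ?_ hcard'
  have d2 : c / 32 * (x : ℝ) ≤ c / 32 * (8 * X) := mul_le_mul_of_nonneg_left hXr (by positivity)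
  linarith

end Pool.Agent.N868.HW
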